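import Pool.Agent.U797.RC.Blow
import Pool.Agent.R50.SR.Minimax

set_option autoImplicit false

/-!
# Random cuts which are good for all dense edge weights at once
-/

namespace Pool.Agent.U797.RC

open Finset Filter

open Classical in
/-- **Large cuts for real vertex weights.** -/
theorem weight_real (m : ℕ) (F : SimpleGraph (Fin m)) (hF : F.IsAcyclic) (k : ℕ) :
    ∃ c : ℝ, 0 < c ∧ ∀ (V : Type) [Fintype V] (G : SimpleGraph V), ¬ F.IsIndContained G →
      G.CliqueFree k → ∀ p : V → ℝ, (∀ v, 0 ≤ p v) → ∃ s : V → ℝ, (∀ v, s v = 1 ∨ s v = -1) ∧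
        Q (ad G) (fun v => p v * s v) ≤ -(c * ∑ x, ∑ y, ad G x y * (p x * p y)) := by
  obtain ⟨c, hc, H⟩ := weight_nat m F hF k
  refine ⟨c, hc, ?_⟩
  intro V _ G hFG hfree p hp
  -- signs given by boolean functions
  obtain ⟨sg, hsg⟩ : ∃ sg : (V → Bool) → V → ℝ, sg = fun b v => if b v = true then 1 else -1 :=
    ⟨_, rfl⟩
  have hsg1 : ∀ b v, sg b v = 1 ∨ sg b v = -1 := by
    intro b v
    rw [hsg]
    by_cases h : b v = true
    · left; simp [h]
    · right; simp [h]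
  have hN : ∀ N : ℕ, ∃ b : V → Bool,
      Q (ad G) (fun v => (⌊p v * N⌋₊ : ℝ) / N * sg b v) ≤
        -(c * ∑ x, ∑ y, ad G x y * ((⌊p x * N⌋₊ : ℝ) / N * ((⌊p y * N⌋₊ : ℝ) / N))) := by
    intro N
    obtain ⟨s, hs1, hs2⟩ := H V G hFG hfree (fun v => ⌊p v * N⌋₊)
    refine ⟨fun v => decide (s v = 1), ?_⟩
    have h1 : sg (fun v => decide (s v = 1)) = s := by
      funext v
      rw [hsg]
      rcases hs1 v with h | h
      · simp [h]
      · have : ¬ ((-1 : ℝ) = 1) := by norm_num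
        simp [h, this]
    rw [h1]
    have h2 : Q (ad G) (fun v => (⌊p v * N⌋₊ : ℝ) / N * s v) =
        (1 / (N : ℝ)) * (1 / N) * Q (ad G) (fun v => (⌊p v * N⌋₊ : ℝ) * s v) := by
      unfold Q Bf
      rw [mul_sum]
      refine sum_congr rfl fun x _ => ?_
      rw [mul_sum]
      refine sum_congr rfl fun y _ => ?_
      ring
    have h3 : ∑ x, ∑ y, ad G x y * ((⌊p x * N⌋₊ : ℝ) / N * ((⌊p y * N⌋₊ : ℝ) / N)) =
        (1 / (N : ℝ)) * (1 / N) * ∑ x, ∑ y, ad G x y * ((⌊p x * N⌋₊ : ℝ) * (⌊p y * N⌋₊ : ℝ)) := by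
      rw [mul_sum]
      refine sum_congr rfl fun x _ => ?_
      rw [mul_sum]
      refine sum_congr rfl fun y _ => ?_
      ring
    rw [h2, h3]
    have h4 : (0 : ℝ) ≤ 1 / (N : ℝ) * (1 / N) := by positivity
    have h5 := mul_le_mul_of_nonneg_left hs2 h4
    refine h5.trans (le_of_eq ?_)
    ring
  choose b hb using hN
  obtain ⟨b₀, hb₀⟩ : ∃ b₀ : V → Bool, ∃ᶠ N in atTop, b N = b₀ := by
    by_contra hcon
    push Not at hcon
    have h2 : ∀ᶠ N in atTop, ∀ b₀ : V → Bool, b N ≠ b₀ := eventually_all.2 hcon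
    obtain ⟨N, hN⟩ := h2.exists
    exact hN (b N) rfl
  refine ⟨sg b₀, hsg1 b₀, ?_⟩
  have hlim : ∀ v, Tendsto (fun N : ℕ => (⌊p v * N⌋₊ : ℝ) / N) atTop (nhds (p v)) := fun v =>
    (tendsto_nat_floor_mul_div_atTop (hp v)).comp tendsto_natCast_atTop_atTop
  have t1 : Tendsto (fun N : ℕ => Q (ad G) (fun v => (⌊p v * N⌋₊ : ℝ) / N * sg b₀ v)) atTop
      (nhds (Q (ad G) (fun v => p v * sg b₀ v))) := by
    unfold Q Bf
    refine tendsto_finsetSum _ fun x _ => tendsto_finsetSum _ fun y _ => ?_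
    exact (((hlim x).mul_const _).mul ((hlim y).mul_const _)).const_mul _
  have t2 : Tendsto (fun N : ℕ => -(c * ∑ x, ∑ y, ad G x y *
      ((⌊p x * N⌋₊ : ℝ) / N * ((⌊p y * N⌋₊ : ℝ) / N)))) atTop
      (nhds (-(c * ∑ x, ∑ y, ad G x y * (p x * p y)))) := by
    refine (Tendsto.const_mul _ ?_).neg
    refine tendsto_finsetSum _ fun x _ => tendsto_finsetSum _ fun y _ => ?_
    exact ((hlim x).mul (hlim y)).const_mul _
  exact le_of_tendsto_of_tendsto_of_frequently t1 t2 (hb₀.mono fun N hN => by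
    have := hb N
    rw [hN] at this
    exact this)

/-- the data: a graph with vertex weights `p`, and edge weights `w ≤ p ⊗ p` -/
structure Adm {V : Type} (G : SimpleGraph V) (p : V → ℝ) (w : V → V → ℝ) : Prop where
  nonneg : ∀ x y, 0 ≤ w x y
  le : ∀ x y, w x y ≤ ad G x y * (p x * p y)

variable {V : Type} [Fintype V] {G : SimpleGraph V}

omit [Fintype V] in
theorem Adm.self {p : V → ℝ} {w : V → V → ℝ} (h : Adm G p w) (x : V) : w x x = 0 := by
  have h1 := h.le x x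
  rw [ad_self, zero_mul] at h1
  exact le_antisymm h1 (h.nonneg x x)

open Classical in
/-- the induction on the vertex set -/
theorem sub_cut {c₀ : ℝ} (hc₀ : 0 < c₀) (hc₁ : c₀ ≤ 1 / 2) {κ : ℝ}
    (hκ : κ * (1 - c₀) = 1 - c₀ / 2) {C : ℕ} (hC : 2 ≤ κ ^ C * (1 - c₀ / 2))
    {p : V → ℝ} (hp : ∀ v, 0 ≤ p v)
    (H : ∀ p' : V → ℝ, (∀ v, 0 ≤ p' v) → ∃ s : V → ℝ, (∀ v, s v = 1 ∨ s v = -1) ∧
        Q (ad G) (fun v => p' v * s v) ≤ -(c₀ * ∑ x, ∑ y, ad G x y * (p' x * p' y)))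
    {w : V → V → ℝ} (hw : Adm G p w) : ∀ (n : ℕ) (U : Finset V), U.card ≤ n → ∀ t : ℝ, 0 ≤ t →
      Sw w U (-(c₀ / 2 * (((C : ℝ) + 1) * t ^ C * tot w U -
        C * t ^ (C + 1) * tot (fun x y => ad G x y * (p x * p y)) U))) := by
  obtain ⟨pp, hpp⟩ : ∃ pp : V → V → ℝ, pp = fun x y => ad G x y * (p x * p y) := ⟨_, rfl⟩
  rw [← hpp]
  have hpp0 : ∀ x y, 0 ≤ pp x y := by
    intro x y
    rw [hpp]
    exact mul_nonneg (ad_nonneg G x y) (mul_nonneg (hp x) (hp y))
  have hwpp : ∀ U : Finset V, tot w U ≤ tot pp U := by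
    intro U
    unfold tot
    refine sum_le_sum fun x _ => sum_le_sum fun y _ => ?_
    rw [hpp]
    exact hw.le x y
  have hκ0 : 0 < κ := by
    have h1 : 0 < 1 - c₀ := by linarith
    have h2 : 0 < κ * (1 - c₀) := by rw [hκ]; linarith
    exact (mul_pos_iff_of_pos_right h1).1 h2
  intro n
  induction n with
  | zero =>
    intro U hU t ht
    have h1 : U = ∅ := card_eq_zero.1 (Nat.le_zero.1 hU)
    subst h1
    refine (sw_zero w hw.self ∅).mono ?_
    unfold tot
    simp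
  | succ n ih =>
    intro U hU t ht
    obtain ⟨α, hα⟩ : ∃ α : ℝ, α = ((C : ℝ) + 1) * t ^ C := ⟨_, rfl⟩
    obtain ⟨β, hβ⟩ : ∃ β : ℝ, β = C * t ^ (C + 1) := ⟨_, rfl⟩
    rw [← hα, ← hβ]
    have hα0 : 0 ≤ α := by rw [hα]; positivity
    have hβ0 : 0 ≤ β := by rw [hβ]; positivity
    have hαβ : α - β ≤ 1 := by rw [hα, hβ]; exact tangent C t ht
    rcases le_or_gt (α * tot w U - β * tot pp U) 0 with h0 | h0
    · refine (sw_zero w hw.self U).mono ?_
      nlinarith
    have hw0 : 0 ≤ tot w U := tot_nonneg hw.nonneg U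
    have hP0 : 0 < tot pp U := by
      rcases (tot_nonneg hpp0 U).eq_or_lt with h1 | h1
      · have h2 := hwpp U
        rw [← h1] at h2
        have h3 : tot w U = 0 := le_antisymm h2 hw0
        rw [h3, ← h1] at h0
        simp at h0
      · exact h1
    -- the cut of `G[U]`
    obtain ⟨s₀, hs₀, hq₀⟩ := H (fun v => if v ∈ U then p v else 0) (fun v => by
      split_ifs
      · exact hp v
      · exact le_rfl)
    obtain ⟨s, hs⟩ : ∃ s : V → ℝ, s = fun v => if v ∈ U then s₀ v else 0 := ⟨_, rfl⟩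
    have hs1 : ∀ v ∈ U, s v = 1 ∨ s v = -1 := by
      intro v hv
      rw [hs]
      simp only [hv, if_true]
      exact hs₀ v
    have hs2 : ∀ v, v ∉ U → s v = 0 := by
      intro v hv
      rw [hs]
      simp only [hv, if_false]
    have hsplit_w := tot_split w U s hs1 hs2
    have hsplit_p := tot_split pp U s hs1 hs2
    have hQpp : Q pp s ≤ -(c₀ * tot pp U) := by
      have h1 : Q pp s = Q (ad G) (fun v => (if v ∈ U then p v else 0) * s₀ v) := by
        unfold Q Bf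
        refine sum_congr rfl fun x _ => sum_congr rfl fun y _ => ?_
        rw [hpp, hs]
        by_cases hx : x ∈ U
        · by_cases hy : y ∈ U
          · simp only [hx, hy, if_true]; ring
          · simp [hx, hy]
        · simp [hx]
      have h2 : ∑ x, ∑ y, ad G x y * ((if x ∈ U then p x else 0) * (if y ∈ U then p y else 0)) =
          tot pp U := by
        unfold tot
        rw [← sum_subset (subset_univ U) (fun x _ hx => by
          apply sum_eq_zero
          intro y _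
          simp [hx])]
        refine sum_congr rfl fun x hx => ?_
        rw [← sum_subset (subset_univ U) (fun y _ hy => by simp [hy])]
        refine sum_congr rfl fun y hy => ?_
        rw [hpp]
        simp [hx, hy]
      rw [h1, ← h2]
      exact hq₀
    obtain ⟨S, hS⟩ : ∃ S : Finset V, S = U.filter (fun v => s v = 1) := ⟨_, rfl⟩
    obtain ⟨S', hS'⟩ : ∃ S' : Finset V, S' = U.filter (fun v => ¬ s v = 1) := ⟨_, rfl⟩
    rw [← hS, ← hS'] at hsplit_w hsplit_p
    have hUS : S ∪ S' = U := by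
      rw [hS, hS']
      exact filter_union_filter_not_eq _ U
    have hdisj : Disjoint S S' := by
      rw [hS, hS']
      exact disjoint_filter_filter_not U U _
    have hsp : tot pp S + tot pp S' ≤ (1 - c₀) / 2 * tot pp U := by
      rw [hsplit_p]
      linarith
    rcases le_or_gt (Q w s) (-(c₀ / 2 * tot w U)) with hcase | hcase
    · refine ⟨s, hs1, hs2, hcase.trans (neg_le_neg ?_)⟩
      apply mul_le_mul_of_nonneg_left _ (by linarith)
      have h1 := hwpp U
      nlinarith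
    · have hws : (1 - c₀ / 2) / 2 * tot w U ≤ tot w S + tot w S' := by
        rw [hsplit_w]
        linarith
      have hne : ∀ A B : Finset V, A ⊆ U → tot pp A + tot pp B ≤ (1 - c₀) / 2 * tot pp U →
          A.card ≤ n := by
        intro A B hA hAB
        by_contra hcon
        have h1 : U.card ≤ A.card := by omega
        have h2 : A = U := eq_of_subset_of_card_le hA h1
        have h3 := tot_nonneg hpp0 B
        rw [h2] at hAB
        nlinarith
      have i1 := ih S (hne S S' (by rw [hS]; exact filter_subset _ _) hsp) (κ * t)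
        (mul_nonneg hκ0.le ht)
      have i2 := ih S' (hne S' S (by rw [hS']; exact filter_subset _ _) (by linarith)) (κ * t)
        (mul_nonneg hκ0.le ht)
      have i3 := Sw.union hdisj i1 i2
      rw [hUS] at i3
      refine i3.mono ?_
      have e1 : ((C : ℝ) + 1) * (κ * t) ^ C = κ ^ C * α := by rw [hα, mul_pow]; ring
      have e2 : (C : ℝ) * (κ * t) ^ (C + 1) = κ ^ C * (κ * β) := by rw [hβ, mul_pow]; ring
      rw [e1, e2]
      have hκC : 0 ≤ κ ^ C := by positivity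
      have g1 : κ ^ C * α * ((1 - c₀ / 2) / 2 * tot w U) ≤ κ ^ C * α * (tot w S + tot w S') :=
        mul_le_mul_of_nonneg_left hws (mul_nonneg hκC hα0)
      have g2 : κ ^ C * (κ * β) * (tot pp S + tot pp S') ≤
          κ ^ C * (κ * β) * ((1 - c₀) / 2 * tot pp U) :=
        mul_le_mul_of_nonneg_left hsp (mul_nonneg hκC (mul_nonneg hκ0.le hβ0))
      have g3 : κ ^ C * (κ * β) * ((1 - c₀) / 2 * tot pp U) =
          κ ^ C * β * ((1 - c₀ / 2) / 2 * tot pp U) := by
        rw [← hκ]; ring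
      have g4 : 2 * (α * tot w U - β * tot pp U) ≤
          κ ^ C * (1 - c₀ / 2) * (α * tot w U - β * tot pp U) :=
        mul_le_mul_of_nonneg_right hC h0.le
      have g5 : α * tot w U - β * tot pp U ≤ κ ^ C * α * (tot w S + tot w S') -
          κ ^ C * (κ * β) * (tot pp S + tot pp S') := by
        linarith
      have g6 := mul_le_mul_of_nonneg_left g5 (by linarith : (0 : ℝ) ≤ c₀ / 2)
      linarith

theorem tot_univ (w : V → V → ℝ) : tot w univ = ∑ x, ∑ y, w x y := rfl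

open Classical in
/-- **Large cuts for all edge weights `w ≤ p ⊗ p`.** -/
theorem weights (m : ℕ) (F : SimpleGraph (Fin m)) (hF : F.IsAcyclic) (k : ℕ) :
    ∃ (c : ℝ) (C : ℕ), 0 < c ∧ ∀ (V : Type) [Fintype V] (G : SimpleGraph V),
      ¬ F.IsIndContained G → G.CliqueFree k → ∀ p : V → ℝ, (∀ v, 0 ≤ p v) →
      ∀ w : V → V → ℝ, Adm G p w →
      Sw w univ (-(c * (tot w univ / tot (fun x y => ad G x y * (p x * p y)) univ) ^ C *
        tot w univ)) := by
  obtain ⟨c', hc', H'⟩ := weight_real m F hF k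
  obtain ⟨c₀, hc₀⟩ : ∃ c₀ : ℝ, c₀ = min c' (1 / 2) := ⟨_, rfl⟩
  have hc₀0 : 0 < c₀ := by rw [hc₀]; exact lt_min hc' (by norm_num)
  have hc₀1 : c₀ ≤ 1 / 2 := by rw [hc₀]; exact min_le_right _ _
  have hc₀2 : c₀ ≤ c' := by rw [hc₀]; exact min_le_left _ _
  have h1 : 0 < 1 - c₀ := by linarith
  obtain ⟨κ, hκ'⟩ : ∃ κ : ℝ, κ = (1 - c₀ / 2) / (1 - c₀) := ⟨_, rfl⟩
  have hκ : κ * (1 - c₀) = 1 - c₀ / 2 := by
    rw [hκ']
    field_simp
  have hκ1 : 1 < κ := by
    rw [hκ', one_lt_div h1]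
    linarith
  obtain ⟨C, hC'⟩ := pow_unbounded_of_one_lt (4 : ℝ) hκ1
  have hC : 2 ≤ κ ^ C * (1 - c₀ / 2) := by nlinarith
  refine ⟨c₀ / 2, C, by positivity, ?_⟩
  intro V _ G hFG hfree p hp w hw
  have H : ∀ p' : V → ℝ, (∀ v, 0 ≤ p' v) → ∃ s : V → ℝ, (∀ v, s v = 1 ∨ s v = -1) ∧
      Q (ad G) (fun v => p' v * s v) ≤ -(c₀ * ∑ x, ∑ y, ad G x y * (p' x * p' y)) := by
    intro p' hp'
    obtain ⟨s, hs1, hs2⟩ := H' V G hFG hfree p' hp'
    refine ⟨s, hs1, hs2.trans (neg_le_neg ?_)⟩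
    exact mul_le_mul_of_nonneg_right hc₀2 (sum_nonneg fun x _ => sum_nonneg fun y _ =>
      mul_nonneg (ad_nonneg G x y) (mul_nonneg (hp' x) (hp' y)))
  obtain ⟨P, hP⟩ : ∃ P : ℝ, P = tot (fun x y => ad G x y * (p x * p y)) univ := ⟨_, rfl⟩
  have hP0 : 0 ≤ P := by
    rw [hP]
    exact tot_nonneg (fun x y => mul_nonneg (ad_nonneg G x y) (mul_nonneg (hp x) (hp y))) _
  have hw0 : 0 ≤ tot w univ := tot_nonneg hw.nonneg _
  have h2 := sub_cut hc₀0 hc₀1 hκ hC hp H hw univ.card univ le_rfl (tot w univ / P)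
    (div_nonneg hw0 hP0)
  rw [← hP] at h2 ⊢
  refine h2.mono (le_of_eq ?_)
  congr 1
  rcases hP0.eq_or_lt with h3 | h3
  · have h4 : tot w univ = 0 := by
      refine le_antisymm ?_ hw0
      rw [h3, hP]
      unfold tot
      exact sum_le_sum fun x _ => sum_le_sum fun y _ => hw.le x y
    rw [h4, ← h3]
    simp
  · have h5 : (tot w univ / P) ^ (C + 1) * P = (tot w univ / P) ^ C * tot w univ := by
      rw [pow_succ, mul_assoc, div_mul_cancel₀ _ h3.ne']
    have h6 : (C : ℝ) * (tot w univ / P) ^ (C + 1) * P = C * ((tot w univ / P) ^ C * tot w univ) := by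
      rw [mul_assoc, h5]
    rw [h6]
    ring

open Classical in
/-- the weight of the cut given by `S` -/
noncomputable def cut (w : V → V → ℝ) (S : Finset V) : ℝ := ∑ x ∈ S, ∑ y ∈ Sᶜ, w x y

open Classical in
theorem cut_eq {w : V → V → ℝ} (hsym : ∀ x y, w x y = w y x) (s : V → ℝ)
    (hs : ∀ v, s v = 1 ∨ s v = -1) :
    cut w (univ.filter (fun v => s v = 1)) = (tot w univ - Q w s) / 4 := by
  have h1 := tot_split w univ s (fun v _ => hs v) (fun v hv => absurd (mem_univ v) hv)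
  obtain ⟨S, hS⟩ : ∃ S : Finset V, S = univ.filter (fun v => s v = 1) := ⟨_, rfl⟩
  have hS' : univ.filter (fun v => ¬ s v = 1) = Sᶜ := by
    rw [hS, compl_filter]
  rw [hS', ← hS] at h1
  rw [← hS]
  have h2 : tot w univ = tot w S + tot w Sᶜ + cut w S + cut w Sᶜ := by
    unfold tot cut
    rw [compl_compl]
    rw [← sum_add_sum_compl S (fun x => ∑ y, w x y)]
    have h3 : ∀ x, ∑ y, w x y = ∑ y ∈ S, w x y + ∑ y ∈ Sᶜ, w x y := fun x =>
      (sum_add_sum_compl S (fun y => w x y)).symm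
    rw [sum_congr rfl fun x _ => h3 x, sum_congr rfl fun x _ => h3 x, sum_add_distrib,
      sum_add_distrib]
    ring
  have h4 : cut w Sᶜ = cut w S := by
    unfold cut
    rw [compl_compl, sum_comm]
    exact sum_congr rfl fun x _ => sum_congr rfl fun y _ => hsym y x
  rw [h4] at h2
  linarith

open Classical in
/-- **A random cut which is good for all dense edge weights.** -/
theorem random_cut (m : ℕ) (F : SimpleGraph (Fin m)) (hF : F.IsAcyclic) (k : ℕ) :
    ∃ (c : ℝ) (C : ℕ), 0 < c ∧ ∀ (V : Type) [Fintype V] (G : SimpleGraph V),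
      ¬ F.IsIndContained G → G.CliqueFree k → ∀ p : V → ℝ, (∀ v, 0 ≤ p v) →
      ∀ η : ℝ, 0 < η → ∃ μ : Finset V → ℝ, (∀ S, 0 ≤ μ S) ∧ ∑ S, μ S = 1 ∧
        ∀ w : V → V → ℝ, Adm G p w → (∀ x y, w x y = w y x) →
          η * ∑ x, ∑ y, ad G x y * (p x * p y) ≤ ∑ x, ∑ y, w x y →
          (1 / 2 + c * η ^ C) * ((∑ x, ∑ y, w x y) / 2) ≤ ∑ S, μ S * cut w S := by
  obtain ⟨c, C, hc, H⟩ := weights m F hF k
  refine ⟨c / 4, C, by positivity, ?_⟩
  intro V _ G hFG hfree p hp η hη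
  obtain ⟨P, hP⟩ : ∃ P : ℝ, P = ∑ x, ∑ y, ad G x y * (p x * p y) := ⟨_, rfl⟩
  have hP0 : 0 ≤ P := by
    rw [hP]
    exact sum_nonneg fun x _ => sum_nonneg fun y _ =>
      mul_nonneg (ad_nonneg G x y) (mul_nonneg (hp x) (hp y))
  have hWP : ∀ w : V → V → ℝ, Adm G p w → ∑ x, ∑ y, w x y ≤ P := by
    intro w hw
    rw [hP]
    exact sum_le_sum fun x _ => sum_le_sum fun y _ => hw.le x y
  have hW0 : ∀ w : V → V → ℝ, Adm G p w → 0 ≤ ∑ x, ∑ y, w x y := by
    intro w hw
    exact sum_nonneg fun x _ => sum_nonneg fun y _ => hw.nonneg x y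
  rw [← hP]
  obtain ⟨K, hK⟩ : ∃ K : Set (V → V → ℝ), K = {w | Adm G p w ∧ (∀ x y, w x y = w y x) ∧
    η * P ≤ ∑ x, ∑ y, w x y} := ⟨_, rfl⟩
  obtain ⟨f, hf⟩ : ∃ f : Finset V → (V → V → ℝ) → ℝ, f = fun S w =>
    (1 / 2 + c / 2 * η ^ C) * ((∑ x, ∑ y, w x y) / 2) - cut w S := ⟨_, rfl⟩
  -- every weight has a good cut
  have hgood : ∀ w ∈ K, ∃ S, f S w ≤ 0 := by
    intro w hwK
    rw [hK] at hwK
    obtain ⟨hw, hsym, hη'⟩ := hwK
    obtain ⟨s, hs1, _, hs3⟩ := H V G hFG hfree p hp w hw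
    refine ⟨univ.filter (fun v => s v = 1), ?_⟩
    rw [hf]
    simp only
    rw [cut_eq hsym s (fun v => hs1 v (mem_univ v))]
    rw [tot_univ, tot_univ, ← hP] at hs3
    rw [tot_univ]
    have h1 : η ^ C * (∑ x, ∑ y, w x y) ≤ ((∑ x, ∑ y, w x y) / P) ^ C * (∑ x, ∑ y, w x y) := by
      rcases hP0.eq_or_lt with h2 | h2
      · have h3 : ∑ x, ∑ y, w x y = 0 := le_antisymm (by rw [h2]; exact hWP w hw) (hW0 w hw)
        rw [h3]
        simp
      · apply mul_le_mul_of_nonneg_right _ (hW0 w hw)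
        apply pow_le_pow_left₀ hη.le
        rw [le_div_iff₀ h2]
        exact hη'
    have h4 := mul_le_mul_of_nonneg_left h1 hc.le
    nlinarith
  -- the case of the weight zero
  rcases hP0.eq_or_lt with hP1 | hP1
  · refine ⟨fun S => if S = ∅ then 1 else 0, fun S => by simp only []; split_ifs <;> norm_num,
      by simp, ?_⟩
    intro w hw _ _
    have h3 : ∑ x, ∑ y, w x y = 0 := le_antisymm (by rw [hP1]; exact hWP w hw) (hW0 w hw)
    rw [h3]
    simp only [zero_div, mul_zero]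
    refine sum_nonneg fun S _ => mul_nonneg ?_ ?_
    · split_ifs <;> norm_num
    · exact sum_nonneg fun x _ => sum_nonneg fun y _ => hw.nonneg x y
  by_contra hcon
  push Not at hcon
  obtain ⟨δ, hδ⟩ : ∃ δ : ℝ, δ = c / 8 * η ^ C * (η * P) := ⟨_, rfl⟩
  have hδ0 : 0 < δ := by rw [hδ]; positivity
  have hKc : Convex ℝ K := by
    intro w hw w' hw' a b ha hb hab
    rw [hK] at hw hw' ⊢
    obtain ⟨h1, h2, h3⟩ := hw
    obtain ⟨h1', h2', h3'⟩ := hw'
    refine ⟨⟨fun x y => ?_, fun x y => ?_⟩, fun x y => ?_, ?_⟩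
    · simp only [Pi.add_apply, Pi.smul_apply, smul_eq_mul]
      exact add_nonneg (mul_nonneg ha (h1.nonneg x y)) (mul_nonneg hb (h1'.nonneg x y))
    · simp only [Pi.add_apply, Pi.smul_apply, smul_eq_mul]
      have e1 := mul_le_mul_of_nonneg_left (h1.le x y) ha
      have e2 := mul_le_mul_of_nonneg_left (h1'.le x y) hb
      have e3 : a * (ad G x y * (p x * p y)) + b * (ad G x y * (p x * p y)) =
          ad G x y * (p x * p y) := by rw [← add_mul, hab, one_mul]
      linarith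
    · simp only [Pi.add_apply, Pi.smul_apply, smul_eq_mul]
      rw [h2 x y, h2' x y]
    · simp only [Pi.add_apply, Pi.smul_apply, smul_eq_mul]
      have e1 : ∑ x, ∑ y, (a * w x y + b * w' x y) =
          a * ∑ x, ∑ y, w x y + b * ∑ x, ∑ y, w' x y := by
        rw [mul_sum, mul_sum, ← sum_add_distrib]
        refine sum_congr rfl fun x _ => ?_
        rw [mul_sum, mul_sum, ← sum_add_distrib]
      rw [e1]
      have e2 := mul_le_mul_of_nonneg_left h3 ha
      have e3 := mul_le_mul_of_nonneg_left h3' hb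
      have e4 : a * (η * P) + b * (η * P) = η * P := by rw [← add_mul, hab, one_mul]
      linarith
  have hlin : ∀ (S : Finset V) (w w' : V → V → ℝ) (a b : ℝ),
      f S (a • w + b • w') = a * f S w + b * f S w' := by
    intro S w w' a b
    rw [hf]
    unfold cut
    simp only [Pi.add_apply, Pi.smul_apply, smul_eq_mul]
    have e1 : ∀ A B : Finset V, ∑ x ∈ A, ∑ y ∈ B, (a * w x y + b * w' x y) =
        a * ∑ x ∈ A, ∑ y ∈ B, w x y + b * ∑ x ∈ A, ∑ y ∈ B, w' x y := by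
      intro A B
      rw [mul_sum, mul_sum, ← sum_add_distrib]
      refine sum_congr rfl fun x _ => ?_
      rw [mul_sum, mul_sum, ← sum_add_distrib]
    rw [e1, e1]
    ring
  have hconc : ∀ S, ConcaveOn ℝ K (f S) := by
    intro S
    refine ⟨hKc, fun w _ w' _ a b _ _ _ => ?_⟩
    rw [hlin S w w' a b]
    simp only [smul_eq_mul]
    exact le_rfl
  obtain ⟨w, hwK, hw⟩ := Pool.Agent.R50.SR.minimax K hKc f hconc δ (by
    intro l hl0 hl1
    obtain ⟨w, h1, h2, h3, h4⟩ := hcon l hl0 hl1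
    refine ⟨w, by rw [hK]; exact ⟨h1, h2, h3⟩, ?_⟩
    have e1 : ∑ S, l S * f S w = (1 / 2 + c / 2 * η ^ C) * ((∑ x, ∑ y, w x y) / 2) -
        ∑ S, l S * cut w S := by
      rw [hf]
      simp only [mul_sub, sum_sub_distrib, ← sum_mul, hl1, one_mul]
    rw [e1, hδ]
    have e2 : c / 8 * η ^ C * (η * P) ≤ c / 8 * η ^ C * ∑ x, ∑ y, w x y :=
      mul_le_mul_of_nonneg_left h3 (by positivity)
    linarith) (δ / 2) (by positivity)
  obtain ⟨S, hS⟩ := hgood w hwK
  have := hw S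
  linarith

end Pool.Agent.U797.RC
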