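import Pool.Agent.U797.RC.Kernel
import Pool.Agent.U797.GC.Flat
import Pool.Agent.H367R3.GSBasic

set_option autoImplicit false

/-!
# Blow-ups: large cuts for all vertex weights
-/

namespace Pool.Agent.U797.RC

open Finset Pool.Agent.Y394.AT Pool.Agent.R50.MC Pool.Agent.U797.GC

/-- the forest `F` with a pendant vertex added at every vertex -/
def corona {α : Type} (F : SimpleGraph α) : SimpleGraph (α × Bool) where
  Adj x y := (x.2 = false ∧ y.2 = false ∧ F.Adj x.1 y.1) ∨ (x.2 ≠ y.2 ∧ x.1 = y.1)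
  symm := ⟨by
    rintro x y (⟨h1, h2, h3⟩ | ⟨h1, h2⟩)
    · exact Or.inl ⟨h2, h1, h3.symm⟩
    · exact Or.inr ⟨h1.symm, h2.symm⟩⟩
  loopless := ⟨by
    rintro x (⟨_, _, h3⟩ | ⟨h1, _⟩)
    · exact F.loopless.irrefl _ h3
    · exact h1 rfl⟩

theorem corona_adj {α : Type} (F : SimpleGraph α) (x y : α × Bool) : (corona F).Adj x y ↔
    (x.2 = false ∧ y.2 = false ∧ F.Adj x.1 y.1) ∨ (x.2 ≠ y.2 ∧ x.1 = y.1) := Iff.rfl

/-- a map which sends adjacent vertices to adjacent or equal ones preserves reachability -/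
theorem reach_map {α β : Type} {G : SimpleGraph α} {H : SimpleGraph β} (f : α → β)
    (hf : ∀ x y, G.Adj x y → f x = f y ∨ H.Adj (f x) (f y)) {x y : α} (h : G.Reachable x y) :
    H.Reachable (f x) (f y) := by
  obtain ⟨p⟩ := h
  induction p with
  | nil => exact SimpleGraph.Reachable.refl _
  | cons h p ih =>
    rcases hf _ _ h with h1 | h1
    · rw [h1]; exact ih
    · exact h1.reachable.trans ih

theorem corona_acyclic {α : Type} (F : SimpleGraph α) (hF : F.IsAcyclic) :
    (corona F).IsAcyclic := by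
  rw [SimpleGraph.isAcyclic_iff_forall_adj_isBridge]
  intro x y hxy
  rw [SimpleGraph.isBridge_iff]
  intro hreach
  rcases (corona_adj F x y).1 hxy with ⟨h1, h2, h3⟩ | ⟨h1, h2⟩
  · have hbr := (SimpleGraph.isAcyclic_iff_forall_adj_isBridge.1 hF) h3
    rw [SimpleGraph.isBridge_iff] at hbr
    apply hbr
    refine reach_map (fun z => z.1) ?_ hreach
    intro a b hab
    rw [SimpleGraph.deleteEdges_adj] at hab
    obtain ⟨h4, h5⟩ := hab
    rcases (corona_adj F a b).1 h4 with ⟨k1, k2, k3⟩ | ⟨_, k2⟩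
    · right
      rw [SimpleGraph.deleteEdges_adj]
      refine ⟨k3, ?_⟩
      intro h6
      apply h5
      rw [Set.mem_singleton_iff] at h6 ⊢
      rw [Sym2.eq_iff] at h6 ⊢
      rcases h6 with ⟨h7, h8⟩ | ⟨h7, h8⟩
      · left
        exact ⟨Prod.ext h7 (k1.trans h1.symm), Prod.ext h8 (k2.trans h2.symm)⟩
      · right
        exact ⟨Prod.ext h7 (k1.trans h2.symm), Prod.ext h8 (k2.trans h1.symm)⟩
    · exact Or.inl k2
  · -- one of `x`, `y` is pendant; it is isolated after the deletion
    have hiso : ∀ u v : α × Bool, u.2 = true → v.2 = false → u.1 = v.1 →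
        ∀ z, ¬ ((corona F).deleteEdges {s(u, v)}).Adj u z := by
      intro u v hu hv huv z hz
      rw [SimpleGraph.deleteEdges_adj] at hz
      obtain ⟨h4, h5⟩ := hz
      rcases (corona_adj F u z).1 h4 with ⟨k1, _, _⟩ | ⟨k1, k2⟩
      · rw [hu] at k1
        exact Bool.noConfusion k1
      · apply h5
        have hz : z = v := by
          refine Prod.ext (k2.symm.trans huv) ?_
          rw [hv]
          rw [hu] at k1
          cases h : z.2
          · rfl
          · rw [h] at k1
            exact absurd rfl k1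
        rw [hz]
        rfl
    have hnr : ∀ u v : α × Bool, u.2 = true → v.2 = false → u.1 = v.1 →
        ¬ ((corona F).deleteEdges {s(u, v)}).Reachable u v := by
      intro u v hu hv huv hr
      obtain ⟨p⟩ := hr
      cases p with
      | nil =>
        rw [hu] at hv
        exact Bool.noConfusion hv
      | cons h p => exact hiso u v hu hv huv _ h
    cases hx : x.2
    · have hy : y.2 = true := by
        cases h : y.2
        · rw [hx, h] at h1
          exact absurd rfl h1
        · rfl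
      apply hnr y x hy hx h2.symm
      rw [Sym2.eq_swap]
      exact hreach.symm
    · have hy : y.2 = false := by
        cases h : y.2
        · rfl
        · rw [hx, h] at h1
          exact absurd rfl h1
      exact hnr x y hx hy h2 hreach

/-- an induced copy of the corona in a blow-up gives an induced copy of the forest in the graph -/
theorem corona_blow {α V W : Type} (F : SimpleGraph α) (G : SimpleGraph V) (π : W → V)
    (φ : corona F ↪g G.comap π) : Nonempty (F ↪g G) := by
  have hadj : ∀ x y, G.Adj (π (φ x)) (π (φ y)) ↔ (corona F).Adj x y := fun x y => φ.map_rel_iff'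
  refine ⟨⟨⟨fun a => π (φ (a, false)), ?_⟩, ?_⟩⟩
  · intro a b hab
    have h1 : (corona F).Adj (a, false) (a, true) := Or.inr ⟨by simp, rfl⟩
    have h2 : (corona F).Adj (b, false) (a, true) := by
      rw [← hadj]
      have h3 : π (φ (a, false)) = π (φ (b, false)) := hab
      rw [← h3, hadj]
      exact h1
    rcases (corona_adj F _ _).1 h2 with ⟨_, k2, _⟩ | ⟨_, k2⟩
    · exact Bool.noConfusion k2
    · exact k2.symm
  · intro a b
    change G.Adj (π (φ (a, false))) (π (φ (b, false))) ↔ F.Adj a b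
    rw [hadj, corona_adj]
    constructor
    · rintro (⟨_, _, h⟩ | ⟨h, _⟩)
      · exact h
      · exact absurd rfl h
    · intro h
      exact Or.inl ⟨rfl, rfl, h⟩

theorem cliqueFree_blow {V W : Type} {G : SimpleGraph V} {k : ℕ} (h : G.CliqueFree k) (π : W → V) :
    (G.comap π).CliqueFree k := by
  classical
  intro t ht
  rw [SimpleGraph.isNClique_iff] at ht
  obtain ⟨h1, h2⟩ := ht
  have hinj : Set.InjOn π t := by
    intro a ha b hb hab
    by_contra hne
    have h3 : G.Adj (π a) (π b) := h1 ha hb hne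
    rw [hab] at h3
    exact G.loopless.irrefl _ h3
  apply h (t.image π)
  rw [SimpleGraph.isNClique_iff]
  constructor
  · intro a ha b hb hne
    rw [Finset.mem_coe, mem_image] at ha hb
    obtain ⟨a', ha', rfl⟩ := ha
    obtain ⟨b', hb', rfl⟩ := hb
    exact h1 ha' hb' (fun h => hne (by rw [h]))
  · rw [card_image_of_injOn hinj, h2]

open Classical in
/-- the adjacency kernel -/
noncomputable def ad {V : Type} (G : SimpleGraph V) (x y : V) : ℝ := if G.Adj x y then 1 else 0

theorem ad_nonneg {V : Type} (G : SimpleGraph V) (x y : V) : 0 ≤ ad G x y := by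
  unfold ad
  split_ifs <;> norm_num

theorem ad_self {V : Type} (G : SimpleGraph V) (x : V) : ad G x x = 0 := by
  unfold ad
  rw [if_neg (G.loopless.irrefl x)]

open Classical in
/-- **Large cuts for integer vertex weights.** -/
theorem weight_nat (m : ℕ) (F : SimpleGraph (Fin m)) (hF : F.IsAcyclic) (k : ℕ) :
    ∃ c : ℝ, 0 < c ∧ ∀ (V : Type) [Fintype V] (G : SimpleGraph V), ¬ F.IsIndContained G →
      G.CliqueFree k → ∀ n : V → ℕ, ∃ s : V → ℝ, (∀ v, s v = 1 ∨ s v = -1) ∧
        Q (ad G) (fun v => n v * s v) ≤ -(c * ∑ x, ∑ y, ad G x y * ((n x : ℝ) * n y)) := by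
  -- a twin-free forest which contains `F`
  have e : Fin (m * 2) ≃ Fin m × Bool :=
    finProdFinEquiv.symm.trans (Equiv.prodCongr (Equiv.refl _) finTwoEquiv)
  obtain ⟨T, hT, ⟨ι0⟩⟩ := Pool.Agent.H367R3.forest_in_tree ((corona F).comap e)
    ((SimpleGraph.Iso.comap e (corona F)).isAcyclic_iff.2 (corona_acyclic F hF))
  obtain ⟨c, hc, hmain⟩ := main_all (m * 2) k T hT
  refine ⟨c, hc, ?_⟩
  intro V _ G hFG hfree n
  obtain ⟨s', hs', _, hq⟩ := hmain (Σ v, Fin (n v)) (G.comap Sigma.fst)
    (cliqueFree_blow (hfree.mono (Nat.le_succ k)) _)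
    ⟨fun f => by
      have g : corona F ↪g G.comap (Sigma.fst : (Σ v, Fin (n v)) → V) :=
        ((SimpleGraph.Iso.comap e (corona F)).symm.toEmbedding.trans ι0).trans f
      exact hFG (corona_blow F G _ g)⟩
  obtain ⟨σ, hσ⟩ : ∃ σ : V → ℝ, σ = fun v => ∑ i : Fin (n v), s' ⟨v, i⟩ := ⟨_, rfl⟩
  have hσn : ∀ v, |σ v| ≤ n v := by
    intro v
    rw [hσ]
    refine (abs_sum_le_sum_abs _ _).trans ?_
    have : ∀ i : Fin (n v), |s' ⟨v, i⟩| ≤ 1 := by
      intro i
      rcases hs' ⟨v, i⟩ (mem_univ _) with h | h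
      · rw [h]; norm_num
      · rw [h]; norm_num
    refine (sum_le_sum fun i _ => this i).trans ?_
    simp
  have h1 : q (G.comap (Sigma.fst : (Σ v, Fin (n v)) → V)) s' = Q (ad G) σ := by
    unfold q bb Q Bf
    rw [Fintype.sum_sigma]
    refine sum_congr rfl fun x _ => ?_
    have h2 : ∀ i : Fin (n x), (∑ w : (Σ v, Fin (n v)),
        (@ite ℝ ((G.comap (Sigma.fst : (Σ v, Fin (n v)) → V)).Adj ⟨x, i⟩ w)
          (Classical.propDecidable _) (s' ⟨x, i⟩ * s' w) 0)) =
        ∑ y, ad G x y * (s' ⟨x, i⟩ * σ y) := by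
      intro i
      rw [Fintype.sum_sigma]
      refine sum_congr rfl fun y _ => ?_
      rw [hσ]
      simp only
      rw [mul_sum, mul_sum]
      refine sum_congr rfl fun j _ => ?_
      unfold ad
      have : (G.comap (Sigma.fst : (Σ v, Fin (n v)) → V)).Adj ⟨x, i⟩ ⟨y, j⟩ ↔ G.Adj x y := Iff.rfl
      by_cases h : G.Adj x y
      · rw [if_pos (this.2 h), if_pos h, one_mul]
      · rw [if_neg (fun h' => h (this.1 h')), if_neg h, zero_mul]
    refine (sum_congr rfl fun i _ => h2 i).trans ?_
    rw [sum_comm]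
    refine sum_congr rfl fun y _ => ?_
    rw [← mul_sum, ← sum_mul]
    rw [hσ]
  have h3 : ∑ v, dg (G.comap (Sigma.fst : (Σ v, Fin (n v)) → V)) v =
      ∑ x, ∑ y, ad G x y * ((n x : ℝ) * n y) := by
    rw [Fintype.sum_sigma]
    refine sum_congr rfl fun x _ => ?_
    have h2 : ∀ i : Fin (n x), dg (G.comap (Sigma.fst : (Σ v, Fin (n v)) → V)) ⟨x, i⟩ =
        ∑ y, ad G x y * (n y : ℝ) := by
      intro i
      unfold dg
      rw [card_eq_I1, Fintype.sum_sigma]
      refine sum_congr rfl fun y _ => ?_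
      have : ∀ j : Fin (n y), I1 ((⟨y, j⟩ : Σ v, Fin (n v)) ∈
          nb (G.comap (Sigma.fst : (Σ v, Fin (n v)) → V)) ⟨x, i⟩) = ad G x y := by
        intro j
        unfold ad I1
        have : (⟨y, j⟩ : Σ v, Fin (n v)) ∈
          nb (G.comap (Sigma.fst : (Σ v, Fin (n v)) → V)) ⟨x, i⟩ ↔ G.Adj x y := mem_nb _ _ _
        by_cases h : G.Adj x y
        · rw [if_pos (this.2 h), if_pos h]
        · rw [if_neg (fun h' => h (this.1 h')), if_neg h]
      rw [sum_congr rfl fun j _ => this j, sum_const, card_univ, Fintype.card_fin, nsmul_eq_mul,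
        mul_comm]
    rw [sum_congr rfl fun i _ => h2 i, sum_const, card_univ, Fintype.card_fin, nsmul_eq_mul,
      mul_sum]
    refine sum_congr rfl fun y _ => ?_
    ring
  obtain ⟨s, hs1, _, hs3⟩ := round (ad G) (ad_self G) (fun v => (n v : ℝ)) σ hσn univ
  refine ⟨fun v => if s v = n v then 1 else -1, fun v => ?_, ?_⟩
  · by_cases h : s v = n v
    · left; simp [h]
    · right; simp [h]
  · have h4 : (fun v => (n v : ℝ) * (if s v = n v then 1 else -1)) = s := by
      funext v
      by_cases h : s v = n v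
      · rw [if_pos h, mul_one, h]
      · rw [if_neg h]
        rcases hs1 v (mem_univ v) with h5 | h5
        · exact absurd h5 h
        · rw [h5]; ring
    rw [h4]
    refine hs3.trans ?_
    rw [← h1]
    refine hq.trans ?_
    rw [h3]

end Pool.Agent.U797.RC
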