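import Mathlib

set_option autoImplicit false

/-!
# Quadratic forms of kernels: rounding, gluing
-/

namespace Pool.Agent.U797.RC

open Finset

variable {V : Type} [Fintype V]

/-- the bilinear form of a kernel -/
noncomputable def Bf (w : V → V → ℝ) (f g : V → ℝ) : ℝ := ∑ x, ∑ y, w x y * (f x * g y)

/-- the quadratic form of a kernel -/
noncomputable def Q (w : V → V → ℝ) (f : V → ℝ) : ℝ := Bf w f f

theorem Bf_add_left (w : V → V → ℝ) (f f' g : V → ℝ) :
    Bf w (fun v => f v + f' v) g = Bf w f g + Bf w f' g := by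
  unfold Bf
  rw [← sum_add_distrib]
  refine sum_congr rfl fun x _ => ?_
  rw [← sum_add_distrib]
  exact sum_congr rfl fun y _ => by ring

theorem Bf_add_right (w : V → V → ℝ) (f g g' : V → ℝ) :
    Bf w f (fun v => g v + g' v) = Bf w f g + Bf w f g' := by
  unfold Bf
  rw [← sum_add_distrib]
  refine sum_congr rfl fun x _ => ?_
  rw [← sum_add_distrib]
  exact sum_congr rfl fun y _ => by ring

theorem Bf_smul_left (w : V → V → ℝ) (t : ℝ) (f g : V → ℝ) :
    Bf w (fun v => t * f v) g = t * Bf w f g := by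
  unfold Bf
  rw [mul_sum]
  refine sum_congr rfl fun x _ => ?_
  rw [mul_sum]
  exact sum_congr rfl fun y _ => by ring

theorem Bf_smul_right (w : V → V → ℝ) (t : ℝ) (f g : V → ℝ) :
    Bf w f (fun v => t * g v) = t * Bf w f g := by
  unfold Bf
  rw [mul_sum]
  refine sum_congr rfl fun x _ => ?_
  rw [mul_sum]
  exact sum_congr rfl fun y _ => by ring

theorem Q_add (w : V → V → ℝ) (f g : V → ℝ) (t : ℝ) :
    Q w (fun v => f v + t * g v) = Q w f + t * (Bf w f g + Bf w g f) + t * t * Q w g := by
  unfold Q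
  rw [Bf_add_left, Bf_add_right, Bf_add_right, Bf_smul_left, Bf_smul_right, Bf_smul_left,
    Bf_smul_right]
  ring

open Classical in
theorem Q_single (w : V → V → ℝ) (v : V) : Q w (fun x => if x = v then 1 else 0) = w v v := by
  unfold Q Bf
  rw [sum_eq_single v]
  · rw [sum_eq_single v]
    · simp
    · intro y _ hy
      simp [hy]
    · intro h
      exact absurd (mem_univ v) h
  · intro x _ hx
    apply sum_eq_zero
    intro y _
    simp [hx]
  · intro h
    exact absurd (mem_univ v) h

open Classical in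
/-- rounding of a vector in a box, coordinate by coordinate -/
theorem round (w : V → V → ℝ) (hw : ∀ x, w x x = 0) (n σ : V → ℝ) (hσ : ∀ v, |σ v| ≤ n v)
    (S : Finset V) : ∃ s : V → ℝ, (∀ v ∈ S, s v = n v ∨ s v = -n v) ∧ (∀ v, v ∉ S → s v = σ v) ∧
      Q w s ≤ Q w σ := by
  induction S using Finset.induction_on with
  | empty => exact ⟨σ, fun v hv => absurd hv (notMem_empty v), fun _ _ => rfl, le_rfl⟩
  | insert v S hv ih =>
    obtain ⟨s, h1, h2, h3⟩ := ih
    have hsv : s v = σ v := h2 v hv
    have habs : |s v| ≤ n v := by rw [hsv]; exact hσ v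
    obtain ⟨e, he⟩ : ∃ e : V → ℝ, e = fun x => if x = v then 0 else s x := ⟨_, rfl⟩
    obtain ⟨δ, hδ⟩ : ∃ δ : V → ℝ, δ = fun x => if x = v then 1 else 0 := ⟨_, rfl⟩
    have hs : s = fun x => e x + s v * δ x := by
      funext x
      rw [he, hδ]
      by_cases h : x = v
      · subst h; simp
      · simp [h]
    obtain ⟨L, hL⟩ : ∃ L : ℝ, L = Bf w e δ + Bf w δ e := ⟨_, rfl⟩
    have hQ : ∀ t : ℝ, Q w (fun x => e x + t * δ x) = Q w e + t * L := by
      intro t
      rw [Q_add, hL]
      have : Q w δ = 0 := by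
        rw [hδ, Q_single, hw]
      rw [this]
      ring
    have hQs : Q w s = Q w e + s v * L := by
      conv_lhs => rw [hs]
      exact hQ _
    obtain ⟨h4, h5⟩ := abs_le.1 habs
    have hn : 0 ≤ n v := (abs_nonneg _).trans habs
    have key : ∀ t : ℝ, (t = n v ∨ t = -n v) → t * L ≤ s v * L →
        ∃ s : V → ℝ, (∀ u ∈ insert v S, s u = n u ∨ s u = -n u) ∧
          (∀ u, u ∉ insert v S → s u = σ u) ∧ Q w s ≤ Q w σ := by
      intro t ht htL
      refine ⟨fun x => e x + t * δ x, ?_, ?_, ?_⟩
      · intro u hu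
        rw [mem_insert] at hu
        rcases hu with rfl | hu
        · have : e u + t * δ u = t := by rw [he, hδ]; simp
          change e u + t * δ u = n u ∨ e u + t * δ u = -n u
          rw [this]
          exact ht
        · have hne : u ≠ v := fun h => hv (h ▸ hu)
          have : e u + t * δ u = s u := by rw [he, hδ]; simp [hne]
          change e u + t * δ u = n u ∨ e u + t * δ u = -n u
          rw [this]
          exact h1 u hu
      · intro u hu
        rw [mem_insert, not_or] at hu
        have : e u + t * δ u = s u := by rw [he, hδ]; simp [hu.1]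
        change e u + t * δ u = σ u
        rw [this]
        exact h2 u hu.2
      · rw [hQ]
        linarith
    rcases le_total 0 L with hL0 | hL0
    · exact key (-n v) (Or.inr rfl) (mul_le_mul_of_nonneg_right h4 hL0)
    · exact key (n v) (Or.inl rfl) (mul_le_mul_of_nonpos_right h5 hL0)

/-- signs on `A` for which the form of the kernel `w` is at most `r` -/
def Sw (w : V → V → ℝ) (A : Finset V) (r : ℝ) : Prop :=
  ∃ s : V → ℝ, (∀ v ∈ A, s v = 1 ∨ s v = -1) ∧ (∀ v, v ∉ A → s v = 0) ∧ Q w s ≤ r

theorem Sw.mono {w : V → V → ℝ} {A : Finset V} {r r' : ℝ} (h : Sw w A r) (hr : r ≤ r') :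
    Sw w A r' := by
  obtain ⟨s, h1, h2, h3⟩ := h
  exact ⟨s, h1, h2, h3.trans hr⟩

theorem Q_zero (w : V → V → ℝ) : Q w (fun _ => 0) = 0 := by
  unfold Q Bf
  simp

open Classical in
theorem sw_zero (w : V → V → ℝ) (hw : ∀ x, w x x = 0) (A : Finset V) : Sw w A 0 := by
  obtain ⟨s, h1, h2, h3⟩ := round w hw (fun _ => 1) (fun _ => 0) (fun v => by simp) A
  exact ⟨s, h1, h2, h3.trans (Q_zero w).le⟩

open Classical in
theorem Sw.union {w : V → V → ℝ} {A A' : Finset V} {r r' : ℝ} (hd : Disjoint A A') (h : Sw w A r)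
    (h' : Sw w A' r') : Sw w (A ∪ A') (r + r') := by
  obtain ⟨s, h1, h2, h3⟩ := h
  obtain ⟨s', h1', h2', h3'⟩ := h'
  have key : ∀ t : ℝ, (t = 1 ∨ t = -1) → (∀ v ∈ A ∪ A', s v + t * s' v = 1 ∨ s v + t * s' v = -1) ∧
      ∀ v, v ∉ A ∪ A' → s v + t * s' v = 0 := by
    intro t ht
    constructor
    · intro v hv
      rw [mem_union] at hv
      rcases hv with hv | hv
      · have : v ∉ A' := disjoint_left.1 hd hv
        rw [h2' v this, mul_zero, add_zero]
        exact h1 v hv
      · have : v ∉ A := disjoint_right.1 hd hv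
        rw [h2 v this, zero_add]
        rcases ht with rfl | rfl
        · rcases h1' v hv with h4 | h4
          · left; rw [h4]; norm_num
          · right; rw [h4]; norm_num
        · rcases h1' v hv with h4 | h4
          · right; rw [h4]; norm_num
          · left; rw [h4]; norm_num
    · intro v hv
      rw [mem_union, not_or] at hv
      rw [h2 v hv.1, h2' v hv.2]
      ring
  have e1 := Q_add w s s' 1
  have e2 := Q_add w s s' (-1)
  rcases le_total (Q w (fun v => s v + 1 * s' v)) (Q w (fun v => s v + -1 * s' v)) with h5 | h5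
  · obtain ⟨k1, k2⟩ := key 1 (Or.inl rfl)
    exact ⟨fun v => s v + 1 * s' v, k1, k2, by nlinarith⟩
  · obtain ⟨k1, k2⟩ := key (-1) (Or.inr rfl)
    exact ⟨fun v => s v + -1 * s' v, k1, k2, by nlinarith⟩

/-- `(C + 1) t ^ C - C t ^ (C + 1) ≤ 1` -/
theorem tangent (C : ℕ) (t : ℝ) (ht : 0 ≤ t) : ((C : ℝ) + 1) * t ^ C - C * t ^ (C + 1) ≤ 1 := by
  induction C with
  | zero => simp
  | succ C ih =>
    have h1 : 0 ≤ (1 - t) * (1 - t ^ (C + 1)) := by
      rcases le_total t 1 with h | h
      · have := pow_le_one₀ (n := C + 1) ht h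
        exact mul_nonneg (by linarith) (by linarith)
      · have := one_le_pow₀ (n := C + 1) h
        exact mul_nonneg_of_nonpos_of_nonpos (by linarith) (by linarith)
    have h2 : 0 ≤ t * (1 - (((C : ℝ) + 1) * t ^ C - C * t ^ (C + 1))) := mul_nonneg ht (by linarith)
    push_cast
    have h3 : 1 - (((C : ℝ) + 1 + 1) * t ^ (C + 1) - ((C : ℝ) + 1) * t ^ (C + 1 + 1)) =
        t * (1 - (((C : ℝ) + 1) * t ^ C - C * t ^ (C + 1))) + (1 - t) * (1 - t ^ (C + 1)) := by
      ring
    linarith

open Classical in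
/-- the weight inside a set -/
noncomputable def tot (w : V → V → ℝ) (U : Finset V) : ℝ := ∑ x ∈ U, ∑ y ∈ U, w x y

omit [Fintype V] in
theorem tot_nonneg {w : V → V → ℝ} (hw : ∀ x y, 0 ≤ w x y) (U : Finset V) : 0 ≤ tot w U :=
  sum_nonneg fun _ _ => sum_nonneg fun _ _ => hw _ _

open Classical in
/-- the two sides of a division of `U` -/
theorem tot_split (w : V → V → ℝ) (U : Finset V) (s : V → ℝ) (hs : ∀ v ∈ U, s v = 1 ∨ s v = -1)
    (hs0 : ∀ v, v ∉ U → s v = 0) :
    tot w (U.filter (fun v => s v = 1)) + tot w (U.filter (fun v => ¬ s v = 1)) =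
      (tot w U + Q w s) / 2 := by
  have h1 : ∀ A : Finset V, tot w A = ∑ x, ∑ y, w x y * ((if x ∈ A then 1 else 0) *
      (if y ∈ A then 1 else 0)) := by
    intro A
    unfold tot
    rw [← sum_filter_add_sum_filter_not univ (fun x => x ∈ A)]
    rw [sum_eq_zero (s := univ.filter (fun x => ¬ x ∈ A)) (fun x hx => by
      rw [mem_filter] at hx
      rw [sum_eq_zero]
      intro y _
      rw [if_neg hx.2]
      ring), add_zero]
    have h2 : univ.filter (fun x => x ∈ A) = A := by
      ext x
      simp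
    rw [h2]
    refine sum_congr rfl fun x hx => ?_
    rw [← sum_filter_add_sum_filter_not univ (fun x => x ∈ A)]
    rw [sum_eq_zero (s := univ.filter (fun x => ¬ x ∈ A)) (fun y hy => by
      rw [mem_filter] at hy
      rw [if_neg hy.2]
      ring), add_zero, h2]
    refine sum_congr rfl fun y hy => ?_
    rw [if_pos hx, if_pos hy]
    ring
  rw [h1, h1, h1]
  unfold Q Bf
  rw [← sum_add_distrib, ← sum_add_distrib, sum_div]
  refine sum_congr rfl fun x _ => ?_
  rw [← sum_add_distrib, ← sum_add_distrib, sum_div]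
  refine sum_congr rfl fun y _ => ?_
  have key : ∀ v, ((if v ∈ U.filter (fun v => s v = 1) then (1 : ℝ) else 0) =
      ((if v ∈ U then 1 else 0) + s v) / 2) ∧
      ((if v ∈ U.filter (fun v => ¬ s v = 1) then (1 : ℝ) else 0) =
      ((if v ∈ U then 1 else 0) - s v) / 2) := by
    intro v
    by_cases hv : v ∈ U
    · rcases hs v hv with h | h
      · simp [hv, h]
      · have : ¬ ((-1 : ℝ) = 1) := by norm_num
        simp only [mem_filter, hv, h, true_and, this, not_false_eq_true, if_true, if_false]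
        norm_num
    · simp [hv, hs0 v hv]
  rw [(key x).1, (key x).2, (key y).1, (key y).2]
  ring

end Pool.Agent.U797.RC
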